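import Mathlib
import Pool.Agent.H18.CMOc

open Filter Topology

namespace Pool.Agent.Results.MP_768c9c_nt.Exponent

/-- CMO functions; the value `f 0` plays no role -/
def IsCMO (f : ℕ → ℂ) : Prop :=
  f 1 = 1 ∧ (∀ m n : ℕ, 0 < m → 0 < n → f (m * n) = f m * f n) ∧
  Tendsto (fun N : ℕ => ∑ n ∈ Finset.Icc 1 N, f n) atTop (𝓝 0)

/-- the summatory function -/
noncomputable def S (f : ℕ → ℂ) (x : ℝ) : ℂ := ∑ n ∈ Finset.Icc 1 ⌊x⌋₊, f n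

/-- every interval `(x, x + x ^ η]` with `x` large holds `≫ x ^ η / log x` primes -/
def ShortIntervals (η : ℝ) : Prop :=
  ∃ c : ℝ, 0 < c ∧ ∀ᶠ x : ℝ in atTop, c * x ^ η / Real.log x ≤
    (Nat.primeCounting ⌊x + x ^ η⌋₊ : ℝ) - Nat.primeCounting ⌊x⌋₊

theorem result :
    (∀ f, IsCMO f → ∀ L : ℝ, L < 1 / 2 → ∃ᶠ x : ℝ in atTop, L < x * ‖S f x‖) ∧
    (∀ η κ : ℝ, 0 < η → 0 < κ → η + κ < 1 → ShortIntervals η →
      ∃ f, IsCMO f ∧ ∃ C : ℝ, ∀ x : ℝ, 1 ≤ x → ‖S f x‖ ≤ C * x ^ (-κ)) ∧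
    (∀ η : ℝ, 0 < η → η < 1 / 2 → ShortIntervals η →
      ∃ f, IsCMO f ∧ Tendsto (fun x : ℝ => √x * ‖S f x‖) atTop (𝓝 0)) := by
  have H2 : ∀ η κ : ℝ, 0 < η → 0 < κ → η + κ < 1 → ShortIntervals η →
      ∃ f, IsCMO f ∧ ∃ C : ℝ, ∀ x : ℝ, 1 ≤ x → ‖S f x‖ ≤ C * x ^ (-κ) := by
    rintro η κ hη hκ h ⟨c, hc, H⟩
    obtain ⟨f, h1, h2, h3, h4⟩ := Pool.Agent.H18.CMOc.main' hη hκ h hc H
    exact ⟨f, ⟨h1, h2, h3⟩, h4⟩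
  refine ⟨?_, H2, fun η hη h H => ?_⟩
  · rintro f ⟨h1, hm, hs⟩ L hL
    have h := Pool.Agent.H18.MOsum.main f h1 (fun m n a b _ => hm m n a b)
      (Pool.Agent.H18.CMOc.loc f h1 hm hs) hL
    refine (tendsto_natCast_atTop_atTop (R := ℝ)).frequently ?_
    simpa [S] using h
  · obtain ⟨f, hf, C, hC⟩ := H2 η (3 / 4 - η / 2) hη (by linarith) (by linarith) H
    exact ⟨f, hf, Pool.Agent.H18.CMOc.sqrt_decay _ (fun x => norm_nonneg _) (by linarith) hC⟩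

end Pool.Agent.Results.MP_768c9c_nt.Exponent
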